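import Pool.Agent.J4H79.PC.Fin

/-!
# The optimal pairwise coupling ratio for `|x - y|^q` is at most `1200 / q`

For every `0 < q < 1` there is a coupling of all Borel probability measures on the line, defined
on `[0,1]` with Lebesgue measure, with `E |X_P - X_Q|^q ≤ (1200 / q) C*(P, Q)` for all `P`, `Q`.
In particular the optimal pairwise coupling ratio stays bounded as `q → 1`.

`leb`, `Cstar`, `IsCoupling`, `ratio`, `optRatio` are those of `Pool.Agent.R972.PC.Defs`.
-/

set_option autoImplicit false

open MeasureTheory Pool.Agent.R972.PC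
open scoped ENNReal

/-- For all `0 < q < 1` the optimal pairwise coupling ratio of `𝒫(ℝ)` for the cost `|x - y|^q` is
at most `1200 / q`; in particular it is at most `2400` for all `1/2 ≤ q < 1`. -/
theorem Pool.Agent.Results.MP_ee92c9_pr.UniformBound.result :
    (∀ q : ℝ, 0 < q → q < 1 → optRatio q ≤ ENNReal.ofReal (1200 / q)) ∧
    (∀ q : ℝ, 1 / 2 ≤ q → q < 1 → optRatio q ≤ (2400 : ℝ≥0∞)) := by
  refine ⟨fun q h0 h1 => Pool.Agent.J4H79.PC.optRatio_le h0 h1, fun q h0 h1 => ?_⟩
  refine (Pool.Agent.J4H79.PC.optRatio_le (by linarith) h1).trans ?_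
  have h2 : 1200 / q ≤ 2400 := by
    rw [div_le_iff₀ (by linarith)]; linarith
  calc ENNReal.ofReal (1200 / q) ≤ ENNReal.ofReal 2400 := ENNReal.ofReal_le_ofReal h2
    _ = 2400 := by simp
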